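import Pool.Agent.X246.DLD.Core

set_option autoImplicit false

/-!
# Low-degree learners for DNF formulas: the bounds
-/

namespace Pool.Agent.X246.DLD

open Finset Pool.Agent.TH440.LD

open Pool.Agent.X246.DCP (Dnf par parF par_orth val_parF parF_card parF_width)

open scoped Classical

/-- No randomized learner `L` from `N` examples, whose output distribution is approximated in the
mean by functions `p o` from the class `Cls`, learns the DNF formulas with at most `s` terms of at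
most `w` literals: if the mean of `∑_o |p o - Pr[output o]|` is at most `η₀` for random attributes
and random labels, and at most `η` for random examples of every such formula, then for some such
formula the hypothesis of `L` has error at most `1 / 2 - γ` with probability at most
`η + (1 + η₀) B`. -/
def Fails (m s w N : ℕ) (Cls : (Sample m N → ℝ) → Prop) (γ B : ℝ) : Prop :=
  ∀ (O : Type) [Fintype O] (L : HLearner m N O) (p : O → Sample m N → ℝ), (∀ o, Cls (p o)) →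
    ∀ η₀ η : ℝ, nullMean (fun b => ∑ o, |p o b - L.prob b o|) ≤ η₀ →
      (∀ F : Dnf s w m, mean F.eval (fun b => ∑ o, |p o b - L.prob b o|) ≤ η) →
      ∃ F : Dnf s w m, success γ L F.eval ≤ η + (1 + η₀) * B

/-- the parities as formulas -/
noncomputable def toDnf {m k s w : ℕ} (hk : 1 ≤ k) (hs : 2 ^ (k - 1) ≤ s) (hw : k ≤ w)
    (κ : Fin k → Fin (m / k)) : Dnf s w m :=
  ⟨parF (io m k) κ, (parF_card _ κ hk).trans hs, fun t ht => (parF_width _ κ t ht).trans hw⟩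

theorem toDnf_eval {m k s w : ℕ} (hk : 1 ≤ k) (hs : 2 ^ (k - 1) ≤ s) (hw : k ≤ w)
    (κ : Fin k → Fin (m / k)) : (toDnf hk hs hw κ : Dnf s w m).eval = par (io m k) κ := by
  funext x
  exact val_parF _ κ x

theorem bits_part {m k s w N D : ℕ} (hk : 1 ≤ k) (hkm : k ≤ m) (hs : 2 ^ (k - 1) ≤ s)
    (hw : k ≤ w) {γ : ℝ} (hγ : 0 < γ) :
    Fails m s w N (PolyInBits D) γ (Real.exp (1 + D / (k + 1) *
      Real.log (((N : ℝ) + 1) * 2 ^ k)) / (4 * γ ^ 2 * ((m / k : ℕ) : ℝ) ^ k)) := by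
  intro O _ L p hp η₀ η h0 h1
  obtain ⟨κ, hκ⟩ := average hk hkm L p (Real.exp_pos _).le hγ
    (fun o κ => bits_K hk (hp o) κ) h0 (fun κ => by
      rw [← toDnf_eval hk hs hw κ]
      exact h1 _)
  exact ⟨toDnf hk hs hw κ, by rw [toDnf_eval]; exact hκ⟩

theorem labels_part {m k s w N d : ℕ} (hk : 1 ≤ k) (hkm : k ≤ m) (hs : 2 ^ (k - 1) ≤ s)
    (hw : k ≤ w) {γ : ℝ} (hγ : 0 < γ) :
    Fails m s w N (PolyInLabels d) γ (Real.exp (1 + d * Real.log ((N : ℝ) + 1)) /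
      (4 * γ ^ 2 * ((m / k : ℕ) : ℝ) ^ k)) := by
  intro O _ L p hp η₀ η h0 h1
  obtain ⟨κ, hκ⟩ := average hk hkm L p (Real.exp_pos _).le hγ
    (fun o κ => labels_K _ (hp o)) h0 (fun κ => by
      rw [← toDnf_eval hk hs hw κ]
      exact h1 _)
  exact ⟨toDnf hk hs hw κ, by rw [toDnf_eval]; exact hκ⟩

theorem Fails.mono {m s w N : ℕ} {Cls : (Sample m N → ℝ) → Prop} {γ B B' : ℝ}
    (h : Fails m s w N Cls γ B) (hB : B ≤ B') : Fails m s w N Cls γ B' := by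
  intro O _ L p hp η₀ η h0 h1
  obtain ⟨F, hF⟩ := h O L p hp η₀ η h0 h1
  have hη₀ : 0 ≤ η₀ := le_trans (nullMean_nonneg fun b => sum_nonneg fun o _ => abs_nonneg _) h0
  exact ⟨F, hF.trans (add_le_add le_rfl (mul_le_mul_of_nonneg_left hB (by linarith)))⟩

theorem basic (C : ℝ) (hC : 0 < C) : ∃ m₀ : ℕ, ∀ m : ℕ, m₀ ≤ m →
    0 < m ∧ 2 ^ (Nat.log 2 m + 1 - 1) ≤ m ∧ Nat.log 2 m + 1 ≤ m ∧
    1 ≤ Real.log m ∧
    ((Nat.log 2 m + 1 : ℕ) : ℝ) * Real.log 2 ≤ 2 * Real.log m ∧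
    Real.log m ≤ ((Nat.log 2 m + 1 : ℕ) : ℝ) + 1 ∧
    Real.exp (1 + Real.log m ^ 2 / 4) / (4 * ((m : ℝ) ^ (-C)) ^ 2 *
      ((m / (Nat.log 2 m + 1) : ℕ) : ℝ) ^ (Nat.log 2 m + 1)) ≤ (m : ℝ) ^ (-C) := by
  have h2 : (0 : ℝ) < Real.log 2 := Real.log_pos (by norm_num)
  have h21 : Real.log 2 ≤ 1 := by
    have := Real.log_two_lt_d9
    linarith
  obtain ⟨η, hη⟩ : ∃ η, η = Real.log 2 / 16 := ⟨_, rfl⟩
  have hη0 : 0 < η := by rw [hη]; positivity
  obtain ⟨K, hK⟩ : ∃ K, K = |Real.log 2 / 8 - 1 - Real.log η| := ⟨_, rfl⟩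
  have hK0 : 0 ≤ K := by rw [hK]; exact abs_nonneg _
  refine ⟨⌈Real.exp (8 * K + 6 * C + 3)⌉₊ + 2, fun m hm => ?_⟩
  have hmR : Real.exp (8 * K + 6 * C + 3) ≤ m := (Nat.le_ceil _).trans (by exact_mod_cast (by omega))
  have hm0 : (0 : ℝ) < m := by exact_mod_cast (by omega : 0 < m)
  obtain ⟨L, hL⟩ : ∃ L, L = Real.log m := ⟨_, rfl⟩
  have hLL : 8 * K + 6 * C + 3 ≤ L := by
    rw [hL]
    exact (Real.le_log_iff_exp_le hm0).2 hmR
  have hL1 : 1 ≤ L := by linarith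
  obtain ⟨l, hl⟩ : ∃ l, l = Nat.log 2 m + 1 := ⟨_, rfl⟩
  rw [← hl, ← hL]
  have hl1 : 1 ≤ l := by omega
  have hpow : 2 ^ (l - 1) ≤ m := by
    rw [hl, Nat.add_sub_cancel]
    exact Nat.pow_log_le_self 2 (by omega)
  have hln : l ≤ m := by
    have h3 : l - 1 < 2 ^ (l - 1) := Nat.lt_two_pow_self
    omega
  have hlR : L ≤ l * Real.log 2 := by
    have h3 : m < 2 ^ l := by
      rw [hl]
      exact Nat.lt_pow_succ_log_self (by norm_num) m
    have h4 : (m : ℝ) ≤ 2 ^ l := by exact_mod_cast h3.le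
    rw [hL]
    calc Real.log m ≤ Real.log (2 ^ l) := Real.log_le_log hm0 h4
      _ = l * Real.log 2 := Real.log_pow _ _
  have hlR2 : ((l : ℝ) - 1) * Real.log 2 ≤ L := by
    have h4 : (2 : ℝ) ^ (l - 1) ≤ m := by exact_mod_cast hpow
    rw [hL]
    calc ((l : ℝ) - 1) * Real.log 2 = ((l - 1 : ℕ) : ℝ) * Real.log 2 := by
          rw [Nat.cast_sub hl1, Nat.cast_one]
      _ = Real.log (2 ^ (l - 1)) := (Real.log_pow _ _).symm
      _ ≤ Real.log m := Real.log_le_log (by positivity) h4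
  have hl0 : (0 : ℝ) < l := by exact_mod_cast hl1
  have hLl : L ≤ l := by nlinarith
  refine ⟨by omega, hpow, hln, hL1, by linarith, by linarith, ?_⟩
  have hq1 : 1 ≤ m / l := (Nat.le_div_iff_mul_le hl1).2 (by omega)
  have hq0 : (0 : ℝ) < ((m / l : ℕ) : ℝ) := by exact_mod_cast hq1
  have hq : (m : ℝ) ≤ 2 * l * ((m / l : ℕ) : ℝ) := by
    have h3 : m < l * (m / l + 1) := Nat.lt_mul_div_succ m hl1
    have h4 : l * (m / l + 1) ≤ 2 * l * (m / l) := by nlinarith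
    exact_mod_cast (h3.le.trans h4)
  have hlogq : L - Real.log (2 * l) ≤ Real.log ((m / l : ℕ) : ℝ) := by
    have h3 := Real.log_le_log hm0 hq
    rw [Real.log_mul (by positivity) hq0.ne', ← hL] at h3
    linarith
  have hlog2l : Real.log (2 * l) ≤ 1 / 8 * L + K := by
    have h3 : Real.log (η * (2 * l)) ≤ η * (2 * l) - 1 :=
      Real.log_le_sub_one_of_pos (by positivity)
    rw [Real.log_mul hη0.ne' (by positivity)] at h3
    have h4 : Real.log 2 / 8 - 1 - Real.log η ≤ K := by rw [hK]; exact le_abs_self _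
    have h7 : η * (2 * l) = 1 / 8 * (l * Real.log 2) := by rw [hη]; ring
    rw [h7] at h3
    linarith
  have hq34 : 3 / 4 * L ≤ Real.log ((m / l : ℕ) : ℝ) := by linarith
  have hmain : 3 / 4 * L ^ 2 ≤ l * Real.log ((m / l : ℕ) : ℝ) := by
    calc 3 / 4 * L ^ 2 = L * (3 / 4 * L) := by ring
      _ ≤ l * Real.log ((m / l : ℕ) : ℝ) :=
        mul_le_mul hLl hq34 (by positivity) hl0.le
  rw [div_le_iff₀ (by positivity)]
  have e1 : (m : ℝ) ^ (-C) = Real.exp (-(C * L)) := by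
    rw [Real.rpow_def_of_pos hm0, ← hL]
    congr 1
    ring
  have e4 : ((m / l : ℕ) : ℝ) ^ l = Real.exp (l * Real.log ((m / l : ℕ) : ℝ)) := by
    rw [Real.exp_nat_mul, Real.exp_log hq0]
  have e5 : Real.exp (-(C * L)) ^ 2 = Real.exp (-(2 * (C * L))) := by
    rw [← Real.exp_nat_mul]
    congr 1
    push_cast
    ring
  rw [e1, e4, e5]
  have h5 : Real.exp (1 + L ^ 2 / 4) ≤ Real.exp (-(C * L)) *
      (Real.exp (-(2 * (C * L))) * Real.exp (l * Real.log ((m / l : ℕ) : ℝ))) := by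
    rw [← Real.exp_add, ← Real.exp_add]
    apply Real.exp_le_exp.2
    nlinarith
  have h6 : 0 < Real.exp (-(C * L)) *
      (Real.exp (-(2 * (C * L))) * Real.exp (l * Real.log ((m / l : ℕ) : ℝ))) := by positivity
  calc Real.exp (1 + L ^ 2 / 4) ≤ _ := h5
    _ ≤ 4 * (Real.exp (-(C * L)) *
      (Real.exp (-(2 * (C * L))) * Real.exp (l * Real.log ((m / l : ℕ) : ℝ)))) := by linarith
    _ = _ := by ring

theorem asym (C : ℝ) (hC : 0 < C) : ∃ m₀ : ℕ, ∀ m : ℕ, m₀ ≤ m → ∀ w N : ℕ,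
    Nat.log 2 m + 1 ≤ w →
    (∀ D : ℕ, D * (Real.log (N + 1) + Real.log m) ≤ 1 / 8 * Real.log m ^ 3 →
      Fails m m w N (PolyInBits D) ((m : ℝ) ^ (-C)) ((m : ℝ) ^ (-C))) ∧
    (∀ d : ℕ, d * Real.log (N + 1) ≤ 1 / 8 * Real.log m ^ 2 →
      Fails m m w N (PolyInLabels d) ((m : ℝ) ^ (-C)) ((m : ℝ) ^ (-C))) := by
  obtain ⟨m₀, h⟩ := basic C hC
  refine ⟨m₀, fun m hm w N hw => ?_⟩
  obtain ⟨h1, h2, h3, h4, h5, h6, h7⟩ := h m hm
  have hm0 : (0 : ℝ) < m := by exact_mod_cast h1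
  have hγ : 0 < (m : ℝ) ^ (-C) := by positivity
  have hk : 1 ≤ Nat.log 2 m + 1 := by omega
  obtain ⟨k, hkk⟩ : ∃ k, k = Nat.log 2 m + 1 := ⟨_, rfl⟩
  rw [← hkk] at h2 h3 h5 h6 h7 hw hk
  have hq0 : (0 : ℝ) < ((m / k : ℕ) : ℝ) := by
    have : 1 ≤ m / k := (Nat.le_div_iff_mul_le hk).2 (by omega)
    exact_mod_cast this
  have hden : 0 < 4 * ((m : ℝ) ^ (-C)) ^ 2 * ((m / k : ℕ) : ℝ) ^ k := by positivity
  constructor
  · intro D hD
    refine (bits_part hk h3 h2 hw hγ).mono (le_trans ?_ h7)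
    apply div_le_div_of_nonneg_right _ hden.le
    apply Real.exp_le_exp.2
    have h8 : Real.log (((N : ℝ) + 1) * 2 ^ k) ≤ 2 * (Real.log (N + 1) + Real.log m) := by
      rw [Real.log_mul (by positivity) (by positivity), Real.log_pow]
      have h9 : 0 ≤ Real.log ((N : ℝ) + 1) := Real.log_nonneg (by
        have : (0 : ℝ) ≤ N := Nat.cast_nonneg _
        linarith)
      linarith
    have h9 : (0 : ℝ) < (k : ℝ) + 1 := by positivity
    have h10 : (D : ℝ) / (k + 1) * Real.log (((N : ℝ) + 1) * 2 ^ k) ≤ Real.log m ^ 2 / 4 := by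
      rw [div_mul_eq_mul_div, div_le_iff₀ h9]
      have h11 : (D : ℝ) * Real.log (((N : ℝ) + 1) * 2 ^ k) ≤
          D * (2 * (Real.log (N + 1) + Real.log m)) :=
        mul_le_mul_of_nonneg_left h8 (Nat.cast_nonneg _)
      have h12 : Real.log m ^ 2 / 4 * Real.log m ≤ Real.log m ^ 2 / 4 * (k + 1) :=
        mul_le_mul_of_nonneg_left h6 (by positivity)
      nlinarith
    linarith
  · intro d hd
    refine (labels_part hk h3 h2 hw hγ).mono (le_trans ?_ h7)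
    apply div_le_div_of_nonneg_right _ hden.le
    apply Real.exp_le_exp.2
    nlinarith

end Pool.Agent.X246.DLD
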