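import Pool.Agent.X246.DCP.Par
import Pool.Agent.TH440.LD.Main

set_option autoImplicit false

/-!
# Low-degree learners for DNF formulas
-/

namespace Pool.Agent.X246.DLD

open Finset Pool.Agent.TH440.LD

open Pool.Agent.X246.DCP (Dnf par parF par_orth val_parF)

open scoped Classical

/-- A randomized learner from `N` labelled examples with `m` attributes: the distribution of its
output, an element of `O`, as an arbitrary function of the sample, and the hypothesis `hyp o` which
belongs to the output `o`. -/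
structure HLearner (m N : ℕ) (O : Type) [Fintype O] where
  prob : Sample m N → O → ℝ
  nonneg : ∀ b o, 0 ≤ prob b o
  sum_eq : ∀ b, ∑ o, prob b o = 1
  hyp : O → (Fin m → Bool) → Bool

/-- The error of the hypothesis `h` for the target `f`. -/
noncomputable def err {m : ℕ} (h f : (Fin m → Bool) → Bool) : ℝ :=
  ((univ.filter fun x => h x ≠ f x).card : ℝ) / 2 ^ m

/-- The probability that the hypothesis of the learner for `N` random examples of the target `f` has
error at most `1 / 2 - γ`. -/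
noncomputable def success {m N : ℕ} {O : Type} [Fintype O] (γ : ℝ) (L : HLearner m N O)
    (f : (Fin m → Bool) → Bool) : ℝ :=
  mean f (fun b => ∑ o ∈ univ.filter (fun o => err (L.hyp o) f ≤ 1 / 2 - γ), L.prob b o)

variable {m k : ℕ}

/-- the attributes in blocks -/
def io (m k : ℕ) (q : Fin k × Fin (m / k)) : Fin m := blk m k q.1 q.2

theorem io_inj : Function.Injective (io m k) := by
  rintro ⟨h, v⟩ ⟨h', v'⟩ he
  obtain ⟨h1, h2⟩ := blk_inj he
  exact Prod.ext h1 h2

/-- the parity of `k` bits -/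
noncomputable def prt (k : ℕ) (v : Fin k → Bool) : Bool :=
  decide (Odd (univ.filter fun j : Fin k => v j = true).card)

theorem junta_prt (κ : Fin k → Fin (m / k)) :
    junta (prt k) (fun h => blk m k h (κ h)) = par (io m k) κ := rfl

theorem prt_flip (v : Fin k → Bool) (j₀ : Fin k) :
    prt k (Function.update v j₀ (!v j₀)) = !prt k v := by
  unfold prt
  have h4 : ∀ y : Fin k → Bool, (univ.filter fun j : Fin k => y j = true).card =
      (if y j₀ = true then 1 else 0) + ((univ.erase j₀).filter fun j : Fin k => y j = true).card := by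
    intro y
    rw [card_filter, ← Finset.add_sum_erase _ _ (mem_univ j₀), card_filter]
  rw [h4, h4]
  have h5 : ((univ.erase j₀).filter fun j : Fin k => Function.update v j₀ (!v j₀) j = true) =
      ((univ.erase j₀).filter fun j : Fin k => v j = true) := by
    apply filter_congr
    intro j hj
    rw [Function.update_of_ne (ne_of_mem_erase hj)]
  rw [h5, Function.update_self]
  generalize ((univ.erase j₀).filter fun j : Fin k => v j = true).card = c
  cases hx : v j₀
  · simp only [Bool.not_false, if_true, Bool.false_eq_true, if_false, zero_add]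
    rw [add_comm]
    have h7 := Nat.odd_add_one (n := c)
    by_cases hc : Odd c <;> simp [hc, h7]
  · simp only [Bool.not_true, if_true, Bool.false_eq_true, if_false, zero_add]
    rw [add_comm]
    have h7 := Nat.odd_add_one (n := c)
    by_cases hc : Odd c <;> simp [hc, h7]

theorem prt_balanced (hk : 1 ≤ k) : Balanced (k - 1) (prt k) := by
  intro H hH y
  obtain ⟨j₀, hj₀⟩ : ∃ j₀ : Fin k, j₀ ∉ H := by
    by_contra hcon
    push Not at hcon
    have h1 : (univ : Finset (Fin k)) ⊆ H := fun j _ => hcon j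
    have h2 := card_le_card h1
    rw [card_univ, Fintype.card_fin] at h2
    omega
  have h1 : (univ.filter (fun x : Fin k → Bool => (∀ j ∈ H, x j = y j) ∧ prt k x = true)).card =
      (univ.filter (fun x : Fin k → Bool => (∀ j ∈ H, x j = y j) ∧ ¬ prt k x = true)).card := by
    refine card_bij (fun x _ => Function.update x j₀ (!x j₀)) ?_ ?_ ?_
    · intro x hx
      rw [mem_filter] at hx ⊢
      refine ⟨mem_univ _, fun j hj => ?_, ?_⟩
      · rw [Function.update_of_ne (ne_of_mem_of_not_mem hj hj₀)]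
        exact hx.2.1 j hj
      · rw [prt_flip, hx.2.2]
        decide
    · intro x _ x' _ h
      have h2 := congrArg (fun z => Function.update z j₀ (!z j₀)) h
      simpa using h2
    · intro x hx
      rw [mem_filter] at hx
      refine ⟨Function.update x j₀ (!x j₀), ?_, by simp⟩
      rw [mem_filter]
      refine ⟨mem_univ _, fun j hj => ?_, ?_⟩
      · rw [Function.update_of_ne (ne_of_mem_of_not_mem hj hj₀)]
        exact hx.2.1 j hj
      · rw [prt_flip]
        have := hx.2.2
        cases h : prt k x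
        · rfl
        · exact absurd h this
  have h2 := card_filter_add_card_filter_not
    (s := univ.filter (fun x : Fin k → Bool => ∀ j ∈ H, x j = y j)) (fun x => prt k x = true)
  rw [filter_filter, filter_filter] at h2
  rw [← h2, ← h1, two_mul]

/-! ### Bessel's inequality -/

open Pool.Agent.TH689.QX (sg sg_mul_self) in
theorem bessel (h : (Fin m → Bool) → Bool) :
    ∑ κ : Fin k → Fin (m / k), (∑ x : Fin m → Bool, sg (h x) * sg (par (io m k) κ x)) ^ 2 ≤
      ((2 : ℝ) ^ m) ^ 2 := by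
  obtain ⟨c, hc⟩ : ∃ c : (Fin k → Fin (m / k)) → ℝ, c = fun κ =>
      ∑ x : Fin m → Bool, sg (h x) * sg (par (io m k) κ x) := ⟨_, rfl⟩
  obtain ⟨Q, hQ⟩ : ∃ Q : ℝ, Q = 2 ^ m := ⟨_, rfl⟩
  have hQ0 : 0 < Q := by rw [hQ]; positivity
  have hcardX : (Fintype.card (Fin m → Bool) : ℝ) = Q := by
    rw [hQ, Fintype.card_fun, Fintype.card_bool, Fintype.card_fin]
    push_cast
    rfl
  have h1 : 0 ≤ ∑ x : Fin m → Bool, (Q * sg (h x) - ∑ κ, c κ * sg (par (io m k) κ x)) ^ 2 :=
    sum_nonneg fun x _ => sq_nonneg _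
  have h2 : ∑ x : Fin m → Bool, (Q * sg (h x) - ∑ κ, c κ * sg (par (io m k) κ x)) ^ 2 =
      Q ^ 2 * Q - 2 * Q * ∑ κ, c κ ^ 2 + Q * ∑ κ, c κ ^ 2 := by
    have e1 : ∀ x : Fin m → Bool, (Q * sg (h x) - ∑ κ, c κ * sg (par (io m k) κ x)) ^ 2 =
        Q ^ 2 - 2 * Q * ∑ κ, c κ * (sg (h x) * sg (par (io m k) κ x)) +
          ∑ κ, ∑ κ', c κ * c κ' * (sg (par (io m k) κ x) * sg (par (io m k) κ' x)) := by
      intro x
      have e2 : ∑ κ, c κ * (sg (h x) * sg (par (io m k) κ x)) =
          sg (h x) * ∑ κ, c κ * sg (par (io m k) κ x) := by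
        rw [mul_sum]
        exact sum_congr rfl fun κ _ => by ring
      have e3 : ∑ κ, ∑ κ', c κ * c κ' * (sg (par (io m k) κ x) * sg (par (io m k) κ' x)) =
          (∑ κ, c κ * sg (par (io m k) κ x)) * ∑ κ, c κ * sg (par (io m k) κ x) := by
        rw [sum_mul_sum]
        exact sum_congr rfl fun κ _ => sum_congr rfl fun κ' _ => by ring
      rw [e2, e3]
      have e4 := sg_mul_self (h x)
      nlinarith [e4]
    rw [sum_congr rfl fun x _ => e1 x, sum_add_distrib, sum_sub_distrib, sum_const, card_univ,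
      nsmul_eq_mul, hcardX, ← mul_sum]
    have e5 : ∑ x : Fin m → Bool, ∑ κ, c κ * (sg (h x) * sg (par (io m k) κ x)) =
        ∑ κ, c κ ^ 2 := by
      rw [sum_comm]
      refine sum_congr rfl fun κ _ => ?_
      rw [← mul_sum, pow_two]
      congr 1
      rw [hc]
    have e6 : ∑ x : Fin m → Bool, ∑ κ, ∑ κ', c κ * c κ' *
        (sg (par (io m k) κ x) * sg (par (io m k) κ' x)) = Q * ∑ κ, c κ ^ 2 := by
      rw [sum_comm, mul_sum]
      refine sum_congr rfl fun κ _ => ?_
      rw [sum_comm, sum_eq_single κ]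
      · rw [sum_congr rfl fun x _ => by rw [sg_mul_self, mul_one], sum_const, card_univ,
          nsmul_eq_mul, hcardX, pow_two]
      · intro κ' _ hκ'
        rw [← mul_sum, par_orth io_inj (Ne.symm hκ'), mul_zero]
      · intro hh
        exact absurd (mem_univ _) hh
    rw [e5, e6]
    ring
  rw [h2] at h1
  have h3 : Q * ∑ κ, c κ ^ 2 ≤ Q * Q ^ 2 := by linarith
  have h4 := le_of_mul_le_mul_left h3 hQ0
  rw [hQ, hc] at h4
  exact h4

open Pool.Agent.TH689.QX (sg) in
theorem corr_eq (h f : (Fin m → Bool) → Bool) :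
    ∑ x : Fin m → Bool, sg (h x) * sg (f x) = 2 ^ m * (1 - 2 * err h f) := by
  have h1 : ∀ x : Fin m → Bool, sg (h x) * sg (f x) = 1 - 2 * (if h x ≠ f x then (1 : ℝ) else 0) := by
    intro x
    cases hx : h x <;> cases fx : f x <;> norm_num [sg]
  rw [sum_congr rfl fun x _ => h1 x, sum_sub_distrib, ← mul_sum, sum_const, card_univ,
    nsmul_eq_mul, mul_one, sum_boole, Fintype.card_fun, Fintype.card_bool, Fintype.card_fin]
  unfold err
  push_cast
  have : (2 : ℝ) ^ m ≠ 0 := by positivity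
  field_simp

theorem few_good {γ : ℝ} (hγ : 0 < γ) (h : (Fin m → Bool) → Bool) :
    ((univ.filter fun κ : Fin k → Fin (m / k) => err h (par (io m k) κ) ≤ 1 / 2 - γ).card : ℝ) *
      (4 * γ ^ 2) ≤ 1 := by
  have h1 := bessel (k := k) h
  have h2 : ∑ _κ ∈ univ.filter (fun κ : Fin k → Fin (m / k) =>
      err h (par (io m k) κ) ≤ 1 / 2 - γ), ((2 : ℝ) ^ m) ^ 2 * (4 * γ ^ 2) ≤ ((2 : ℝ) ^ m) ^ 2 := by
    refine le_trans (sum_le_sum fun κ hκ => ?_) ((sum_le_sum_of_subset_of_nonneg
      (subset_univ _) fun κ _ _ => sq_nonneg _).trans h1)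
    have h3 := (mem_filter.1 hκ).2
    rw [corr_eq]
    have h4 : 2 * γ ≤ 1 - 2 * err h (par (io m k) κ) := by linarith
    have h5 : (2 * γ) ^ 2 ≤ (1 - 2 * err h (par (io m k) κ)) ^ 2 :=
      pow_le_pow_left₀ (by positivity) h4 2
    rw [mul_pow]
    refine mul_le_mul_of_nonneg_left ?_ (by positivity)
    linarith
  rw [sum_const, nsmul_eq_mul] at h2
  have h3 : (0 : ℝ) < ((2 : ℝ) ^ m) ^ 2 := by positivity
  have h4 : (((univ.filter fun κ : Fin k → Fin (m / k) =>
      err h (par (io m k) κ) ≤ 1 / 2 - γ).card : ℝ) * (4 * γ ^ 2)) * ((2 : ℝ) ^ m) ^ 2 ≤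
      1 * ((2 : ℝ) ^ m) ^ 2 := by linarith
  exact le_of_mul_le_mul_right h4 h3

/-! ### Averaging -/

theorem average {N : ℕ} {O : Type} [Fintype O] (hk : 1 ≤ k) (hkm : k ≤ m)
    (L : HLearner m N O) (p : O → Sample m N → ℝ) {K γ : ℝ} (hK : 0 ≤ K) (hγ : 0 < γ)
    (hp : ∀ o, ∀ κ : Fin k → Fin (m / k),
      mean (par (io m k) κ) (p o) ≤ nullMean (fun b => |p o b|) * K) {η₀ η : ℝ}
    (h0 : nullMean (fun b => ∑ o, |p o b - L.prob b o|) ≤ η₀)
    (h1 : ∀ κ : Fin k → Fin (m / k),
      mean (par (io m k) κ) (fun b => ∑ o, |p o b - L.prob b o|) ≤ η) :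
    ∃ κ : Fin k → Fin (m / k), success γ L (par (io m k) κ) ≤
      η + (1 + η₀) * (K / (4 * γ ^ 2 * ((m / k : ℕ) : ℝ) ^ k)) := by
  have hM : 1 ≤ m / k := (Nat.le_div_iff_mul_le hk).2 (by omega)
  have hM0 : (0 : ℝ) < (m / k : ℕ) := by exact_mod_cast hM
  obtain ⟨G, hG⟩ : ∃ G : (Fin k → Fin (m / k)) → Finset O, G = fun κ =>
      univ.filter (fun o => err (L.hyp o) (par (io m k) κ) ≤ 1 / 2 - γ) := ⟨_, rfl⟩
  have hsucc : ∀ κ : Fin k → Fin (m / k), success γ L (par (io m k) κ) ≤
      η + ∑ o ∈ G κ, nullMean (fun b => |p o b|) * K := by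
    intro κ
    have h2 : ∀ b : Sample m N, ∑ o ∈ G κ, L.prob b o ≤
        (∑ o ∈ G κ, p o b) + ∑ o, |p o b - L.prob b o| := by
      intro b
      calc ∑ o ∈ G κ, L.prob b o ≤ ∑ o ∈ G κ, (p o b + |p o b - L.prob b o|) := by
            refine sum_le_sum fun o _ => ?_
            have := neg_abs_le (p o b - L.prob b o)
            linarith
        _ ≤ _ := by
            rw [sum_add_distrib]
            refine add_le_add le_rfl ?_
            exact sum_le_sum_of_subset_of_nonneg (subset_univ _) fun o _ _ => abs_nonneg _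
    have h3 : success γ L (par (io m k) κ) =
        mean (par (io m k) κ) (fun b => ∑ o ∈ G κ, L.prob b o) := by
      rw [hG]
      rfl
    rw [h3]
    refine (mean_mono _ h2).trans ?_
    rw [mean_add, mean_sum, add_comm]
    exact add_le_add (h1 κ) (sum_le_sum fun o _ => hp o κ)
  have hsum : ∑ κ : Fin k → Fin (m / k), success γ L (par (io m k) κ) ≤
      ∑ _κ : Fin k → Fin (m / k), (η + (1 + η₀) * (K / (4 * γ ^ 2 * ((m / k : ℕ) : ℝ) ^ k))) := by
    refine (sum_le_sum fun κ _ => hsucc κ).trans ?_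
    rw [sum_add_distrib, sum_add_distrib]
    refine add_le_add le_rfl ?_
    have h5 : ∑ κ : Fin k → Fin (m / k), ∑ o ∈ G κ, nullMean (fun b => |p o b|) * K =
        ∑ o : O, (univ.filter (fun κ : Fin k → Fin (m / k) => o ∈ G κ)).card *
          (nullMean (fun b => |p o b|) * K) := by
      have h6 : ∀ κ : Fin k → Fin (m / k), ∑ o ∈ G κ, nullMean (fun b => |p o b|) * K =
          ∑ o, if o ∈ G κ then nullMean (fun b => |p o b|) * K else 0 := by
        intro κ
        rw [sum_ite_mem, univ_inter]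
      simp_rw [h6]
      rw [sum_comm]
      refine sum_congr rfl fun o _ => ?_
      rw [← sum_filter, sum_const, nsmul_eq_mul]
    rw [h5]
    have h7 : ∀ o : O,
        ((univ.filter (fun κ : Fin k → Fin (m / k) => o ∈ G κ)).card : ℝ) ≤ 1 / (4 * γ ^ 2) := by
      intro o
      rw [le_div_iff₀ (by positivity)]
      have h8 := few_good (k := k) hγ (L.hyp o)
      have h9 : (univ.filter (fun κ : Fin k → Fin (m / k) => o ∈ G κ)) =
          (univ.filter fun κ : Fin k → Fin (m / k) =>
            err (L.hyp o) (par (io m k) κ) ≤ 1 / 2 - γ) := by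
        ext κ
        rw [hG]
        simp
      rw [h9]
      exact h8
    have h9 : ∑ o : O, nullMean (fun b => |p o b|) ≤ 1 + η₀ := by
      rw [← nullMean_sum]
      have h10 : ∀ b : Sample m N, ∑ o, |p o b| ≤ 1 + ∑ o, |p o b - L.prob b o| := by
        intro b
        rw [← L.sum_eq b, ← sum_add_distrib]
        refine sum_le_sum fun o _ => ?_
        have h11 := abs_add_le (L.prob b o) (p o b - L.prob b o)
        rw [add_sub_cancel, abs_of_nonneg (L.nonneg b o)] at h11
        exact h11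
      refine (nullMean_mono h10).trans ?_
      rw [nullMean_add, nullMean_one]
      exact add_le_add le_rfl h0
    calc ∑ o : O, ((univ.filter (fun κ : Fin k → Fin (m / k) => o ∈ G κ)).card : ℝ) *
          (nullMean (fun b => |p o b|) * K)
        ≤ ∑ o : O, (1 / (4 * γ ^ 2)) * (nullMean (fun b => |p o b|) * K) := by
          refine sum_le_sum fun o _ => mul_le_mul_of_nonneg_right (h7 o) ?_
          exact mul_nonneg (nullMean_nonneg fun b => abs_nonneg _) hK
      _ = (1 / (4 * γ ^ 2)) * K * ∑ o : O, nullMean (fun b => |p o b|) := by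
          rw [mul_sum]
          exact sum_congr rfl fun o _ => by ring
      _ ≤ (1 / (4 * γ ^ 2)) * K * (1 + η₀) := mul_le_mul_of_nonneg_left h9 (by positivity)
      _ = _ := by
          rw [sum_const, card_univ, Fintype.card_fun, Fintype.card_fin,
            Fintype.card_fin, nsmul_eq_mul]
          push_cast
          field_simp
  have : Nonempty (Fin (m / k)) := ⟨⟨0, by omega⟩⟩
  obtain ⟨κ, _, hκ⟩ := exists_le_of_sum_le (univ_nonempty) hsum
  exact ⟨κ, hκ⟩

/-! ### The two classes of polynomials -/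

theorem one_add_pow_le (N : ℕ) : (1 + 1 / ((N : ℝ) + 1)) ^ N ≤ Real.exp 1 := by
  calc (1 + 1 / ((N : ℝ) + 1)) ^ N ≤ (Real.exp (1 / ((N : ℝ) + 1))) ^ N := by
        refine pow_le_pow_left₀ (by positivity) ?_ N
        rw [add_comm]
        exact Real.add_one_le_exp _
    _ = Real.exp (N * (1 / ((N : ℝ) + 1))) := by rw [← Real.exp_nat_mul]
    _ ≤ Real.exp 1 := by
        refine Real.exp_le_exp.2 ?_
        rw [mul_one_div, div_le_one (by positivity)]
        linarith

theorem bits_K {N D : ℕ} (hk : 1 ≤ k) {F : Sample m N → ℝ} (hF : PolyInBits D F)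
    (κ : Fin k → Fin (m / k)) :
    mean (par (io m k) κ) F ≤ nullMean (fun b => |F b|) *
      Real.exp (1 + D / (k + 1) * Real.log (((N : ℝ) + 1) * 2 ^ k)) := by
  obtain ⟨u, hu⟩ : ∃ u : ℝ, u = ((N : ℝ) + 1) * 2 ^ k := ⟨_, rfl⟩
  rw [← hu]
  have hu1 : 1 ≤ u := by
    rw [hu]
    have h2 : (1 : ℝ) ≤ 2 ^ k := one_le_pow₀ (by norm_num)
    have h3 : (0 : ℝ) ≤ N := by positivity
    nlinarith
  have hu0 : 0 < u := by linarith
  have hc2 : (0 : ℝ) < (k : ℝ) + 1 := by positivity
  obtain ⟨z, hz⟩ : ∃ z : ℝ, z = u ^ (-(1 / ((k : ℝ) + 1))) := ⟨_, rfl⟩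
  have hz0 : 0 < z := by rw [hz]; positivity
  have hz1 : z ≤ 1 := by
    rw [hz]
    exact Real.rpow_le_one_of_one_le_of_nonpos hu1 (by
      rw [neg_nonpos]; positivity)
  have hzc : z ^ (k - 1 + 2) = u⁻¹ := by
    rw [show k - 1 + 2 = k + 1 by omega, hz, ← Real.rpow_natCast, ← Real.rpow_mul hu0.le]
    push_cast
    rw [neg_mul, one_div_mul_cancel hc2.ne', Real.rpow_neg_one]
  have hzD : (z ^ D)⁻¹ = Real.exp (D / ((k : ℝ) + 1) * Real.log u) := by
    rw [hz, ← Real.rpow_natCast, ← Real.rpow_mul hu0.le, ← Real.rpow_neg hu0.le,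
      Real.rpow_def_of_pos hu0]
    congr 1
    ring
  have h1 := bits_bound (prt_balanced hk) (blk_fun_inj κ) hF z hz0 hz1
  rw [junta_prt] at h1
  refine h1.trans (mul_le_mul_of_nonneg_left ?_ (nullMean_nonneg fun b => abs_nonneg _))
  rw [hzD, hzc, Real.exp_add, mul_comm]
  refine mul_le_mul_of_nonneg_right ?_ (Real.exp_pos _).le
  have h2 : (2 : ℝ) ^ k * u⁻¹ = 1 / ((N : ℝ) + 1) := by
    rw [hu]
    field_simp
  rw [h2]
  exact one_add_pow_le N

theorem labels_K {N d : ℕ} (f : (Fin m → Bool) → Bool) {F : Sample m N → ℝ}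
    (hF : PolyInLabels d F) :
    mean f F ≤ nullMean (fun b => |F b|) * Real.exp (1 + d * Real.log ((N : ℝ) + 1)) := by
  obtain ⟨z, hz⟩ : ∃ z : ℝ, z = 1 / ((N : ℝ) + 1) := ⟨_, rfl⟩
  have hz0 : 0 < z := by rw [hz]; positivity
  have hz1 : z ≤ 1 := by
    rw [hz, div_le_one (by positivity)]
    have : (0 : ℝ) ≤ N := by positivity
    linarith
  refine (labels_bound f hF z hz0 hz1).trans
    (mul_le_mul_of_nonneg_left ?_ (nullMean_nonneg fun b => abs_nonneg _))
  have h2 : (z ^ d)⁻¹ = Real.exp (d * Real.log ((N : ℝ) + 1)) := by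
    rw [hz, one_div, inv_pow, inv_inv, Real.exp_nat_mul, Real.exp_log (by positivity)]
  rw [h2, hz, Real.exp_add, mul_comm]
  exact mul_le_mul_of_nonneg_right (one_add_pow_le N) (Real.exp_pos _).le

end Pool.Agent.X246.DLD
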